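import Pool.Agent.Helper22.NEARs.Glue
import Pool.Agent.Helper39.T5b.S4
import Pool.Agent.Helper45.T5b.S7
import Pool.Agent.Helper50.T5b.BadCtxS
import Pool.Agent.Helper57.T5b.S8
import Pool.Agent.Helper57.T5b.S9
import Pool.Agent.Helper63.T5b.SplitNum
import Pool.Agent.Helper37.T5b.NumS
import Pool.Agent.Helper2.T5b.NumSmall

/-!
# T5b, block NEARs: the lines which are proved
-/

set_option autoImplicit false

namespace Pool.Agent.Helper22.NEARs

open Pool.Agent.Helper84.T5b

/-- all lines except S1 -/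
theorem lines_split (h1 : ∀ m, 2 ≤ m → NearRS m (m ^ 2)) : Lines where
  nearR := h1
  badCtx := fun m hm => Pool.Agent.Helper50.T5b.badCtxS m (m ^ 2) hm (by positivity)
  cardJx := fun m hm => Pool.Agent.Helper50.T5b.cardJxS m (m ^ 2) hm (by positivity)
  num := fun m hm => Pool.Agent.Helper63.T5b.numS m (m ^ 2) hm
  slInst := fun m hm => Pool.Agent.Helper39.T5b.sl_instS m (m ^ 2) hm
  ppReg := fun m hm => Pool.Agent.Helper45.T5b.pp_regS m (m ^ 2) hm
  zbad := fun m hm => Pool.Agent.Helper57.T5b.zbadS (by omega) (m ^ 2)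
  ppBot := fun m hm => Pool.Agent.Helper57.T5b.ppBotS m (m ^ 2) hm (by positivity)
  numReg := Pool.Agent.Helper37.T5b.NumS.numReg
  numBot := Pool.Agent.Helper37.T5b.NumS.numBot
  numSmall := Pool.Agent.Helper2.T5b.numSmallSplit

/-- `Blk CaseStatS RpC` from the label block across SPLIT -/
theorem blk_statS_of_near (h1 : ∀ m, 2 ≤ m → NearRS m (m ^ 2)) : Blk CaseStatS RpC :=
  blk_statS_of (lines_split h1)

end Pool.Agent.Helper22.NEARs
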